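import Pool.Agent.Lib.helper12.GrigB

set_option autoImplicit false

namespace Pool.Agent.Results.MP_b4aa87_al.Full

/-- elements of word length at most `n` over `S` and its inverses -/
def ball {G : Type} [Group G] (S : Finset G) (n : ℕ) : Set G :=
  {g | ∃ l : List G, l.length ≤ n ∧ (∀ s ∈ l, s ∈ S ∨ s⁻¹ ∈ S) ∧ l.prod = g}

/-- number of `Aut(G)`-orbits meeting the ball of radius `n` -/
noncomputable def autGrowth {G : Type} [Group G] (S : Finset G) (n : ℕ) : ℕ :=
  {O : Set G | ∃ g ∈ ball S n, O = {h | ∃ φ : G ≃* G, φ g = h}}.ncard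

/-- the preorder on growth functions -/
def Prec (f g : ℕ → ℕ) : Prop := ∃ l : ℕ, 1 ≤ l ∧ ∀ n, f n ≤ l * g (l * n + l) + l

open Pool.Agent.Lib.helper12.Grig

abbrev GG : Subgroup (Equiv.Perm ℕ) := Subgroup.closure gens

noncomputable def SS : Finset GG := (gens_fin.preimage Subtype.val_injective.injOn).toFinset

lemma mem_SS (s : GG) : s ∈ SS ↔ s.1 ∈ gens := by simp [SS]

lemma ball_sub (n : ℕ) : Subtype.val '' ball SS n ⊆ Bl n := by
  rintro _ ⟨_, ⟨l, h1, h2, rfl⟩, rfl⟩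
  refine ⟨l.map Subtype.val, by simpa using h1, fun s hs => ?_, (Subgroup.val_list_prod _ l).symm⟩
  obtain ⟨t, ht, rfl⟩ := List.mem_map.1 hs
  rcases h2 t ht with h | h
  · exact (mem_SS t).1 h
  · have h3 := (mem_SS _).1 h
    have h4 := gens_inv h3
    rw [Subgroup.coe_inv, inv_inv] at h4
    rw [h4]; exact h3

lemma lift (l : List (Equiv.Perm ℕ)) (hl : ∀ s ∈ l, s ∈ gens) :
    ∃ g ∈ ball SS l.length, g.1 = l.prod := by
  induction l with
  | nil => exact ⟨1, ⟨[], le_rfl, by simp, rfl⟩, rfl⟩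
  | cons s l ih =>
    obtain ⟨_, ⟨l', h1, h2, rfl⟩, h3⟩ := ih fun t ht => hl t (List.mem_cons_of_mem _ ht)
    have hs := hl s List.mem_cons_self
    refine ⟨_, ⟨⟨s, Subgroup.subset_closure hs⟩ :: l', by simpa using h1, fun t ht => ?_, rfl⟩, ?_⟩
    · rcases List.mem_cons.1 ht with rfl | ht
      · exact Or.inl ((mem_SS _).2 hs)
      · exact h2 t ht
    · rw [List.prod_cons, List.prod_cons, Subgroup.coe_mul, h3]

lemma ball_fin (n : ℕ) : (ball SS n).Finite := by
  obtain ⟨C, h⟩ := subexp one_pos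
  exact Set.Finite.of_finite_image ((h n).1.subset (ball_sub n)) Subtype.val_injective.injOn

lemma orb_eq (n : ℕ) : {O : Set GG | ∃ g ∈ ball SS n, O = {h | ∃ φ : GG ≃* GG, φ g = h}} =
    (fun g => {h | ∃ φ : GG ≃* GG, φ g = h}) '' ball SS n := by
  ext O; simp [eq_comm]

lemma upper (n : ℕ) : autGrowth SS n ≤ (Bl n).ncard := by
  obtain ⟨C, h⟩ := subexp one_pos
  rw [autGrowth, orb_eq]
  refine (Set.ncard_image_le (ball_fin n)).trans ?_
  rw [← Set.ncard_image_of_injective _ Subtype.val_injective]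
  exact Set.ncard_le_ncard (ball_sub n) (h n).1

lemma lower (K : ℕ) : 2 ^ Nat.primeCounting K ≤ autGrowth SS (12 * K ^ 4) := by
  have h : ∀ T : Finset ℕ, ∃ g : GG, T ⊆ Nat.primesLE K →
      g ∈ ball SS (12 * K ^ 4) ∧ orderOf g = T.val.lcm := by
    intro T
    by_cases hT : T ⊆ Nat.primesLE K
    · obtain ⟨_, ⟨l, h1, h2, rfl⟩, h3⟩ := orders K T hT
      obtain ⟨g, ⟨l', a1, a2, a3⟩, h4⟩ := lift l h2
      exact ⟨g, fun _ => ⟨⟨l', a1.trans h1, a2, a3⟩, by rw [← h3, ← h4, Subgroup.orderOf_coe]⟩⟩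
    · exact ⟨1, fun e => absurd e hT⟩
  choose g hg using h
  rw [← Nat.primesLE_card_eq_primeCounting, ← Finset.card_powerset, ← Set.ncard_coe_finset,
    autGrowth, orb_eq]
  refine Set.ncard_le_ncard_of_injOn (fun T => {h | ∃ φ : GG ≃* GG, φ (g T) = h})
    (fun T hT => ⟨g T, (hg T (by simpa using hT)).1, rfl⟩) (fun T hT T' hT' e => ?_)
    ((ball_fin _).image _)
  have a : T ⊆ Nat.primesLE K := by simpa using hT
  have b : T' ⊆ Nat.primesLE K := by simpa using hT'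
  have h1 : g T' ∈ {h | ∃ φ : GG ≃* GG, φ (g T') = h} := ⟨MulEquiv.refl _, rfl⟩
  simp only at e
  rw [← e] at h1
  obtain ⟨φ, hφ⟩ := h1
  have h2 : T.val.lcm = T'.val.lcm := by
    rw [← (hg T a).2, ← (hg T' b).2, ← hφ, MulEquiv.orderOf_eq]
  exact Finset.Subset.antisymm (lcm_inj K a b h2) (lcm_inj K b a h2.symm)

lemma pi_big (D J : ℕ) : ∃ j, J ≤ j ∧ j * D < Nat.primeCounting (2 ^ j) := by
  have t := tendsto_pow_const_div_const_pow_of_one_lt 2 (r := 2) (by norm_num)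
  obtain ⟨j, h1, h2⟩ := ((t.eventually_lt_const (show (0 : ℝ) < 1 / (D + 2) by positivity)).and
    (Filter.eventually_ge_atTop (J + 1))).exists
  refine ⟨j, by omega, ?_⟩
  by_contra h
  have h3 : (Nat.primeCounting (2 ^ j) : ℝ) ≤ j * D := by exact_mod_cast not_lt.1 h
  have h4 := (Chebyshev.pi_ge (2 ^ j)).trans h3
  have l2 : 0 < Real.log 2 := Real.log_pos (by norm_num)
  have j1 : (1 : ℝ) ≤ j := by exact_mod_cast (show 1 ≤ j by omega)
  push_cast at h4
  rw [Real.log_pow, div_le_iff₀ (by positivity)] at h4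
  have h5 : Real.log (2 ^ j + 1) ≤ (j + 1) * Real.log 2 := by
    have : (1 : ℝ) ≤ 2 ^ j := one_le_pow₀ (by norm_num)
    calc _ ≤ Real.log (2 ^ (j + 1)) := Real.log_le_log (by positivity) (by rw [pow_succ]; linarith)
      _ = _ := by rw [Real.log_pow]; push_cast; ring
  have h6 : (2 : ℝ) ^ j ≤ j * D * j + (j + 1) := by
    refine le_of_mul_le_mul_right ?_ l2
    nlinarith
  rw [div_lt_div_iff₀ (by positivity) (by positivity)] at h1
  have : (0 : ℝ) ≤ D := by positivity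
  nlinarith

theorem result : ∃ (G : Type) (_ : Group G) (S : Finset G),
    Subgroup.closure (S : Set G) = ⊤ ∧
    (∀ d : ℕ, ¬ Prec (autGrowth S) (fun n => n ^ d)) ∧
    ¬ Prec (fun n => 2 ^ n) (autGrowth S) := by
  refine ⟨GG, inferInstance, SS, ?_, ?_, ?_⟩
  · have : (SS : Set GG) = Subtype.val ⁻¹' gens := by ext s; simp [mem_SS]
    rw [this]
    exact Subgroup.closure_closure_coe_preimage
  · rintro d ⟨l, hl, h⟩
    obtain ⟨j, h1, h2⟩ := pi_big (5 * d + 1) (13 * l)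
    have h3 := (lower (2 ^ j)).trans (h _)
    have h4 : 13 * l ≤ 2 ^ j := h1.trans Nat.lt_two_pow_self.le
    have h5 := Nat.pow_lt_pow_right (show 1 < 2 by norm_num) h2
    rw [pow_mul] at h5
    generalize 2 ^ j = K at h3 h4 h5
    have k1 : 1 ≤ K ^ 4 := Nat.one_le_pow _ _ (by omega)
    have h6 : l * (12 * K ^ 4) + l ≤ K ^ 5 := by
      calc _ ≤ 13 * l * K ^ 4 := by nlinarith
        _ ≤ K * K ^ 4 := Nat.mul_le_mul_right _ h4
        _ = _ := by ring
    have h7 : (l * (12 * K ^ 4) + l) ^ d ≤ (K ^ 5) ^ d := Nat.pow_le_pow_left h6 d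
    have k2 : 1 ≤ (K ^ 5) ^ d := Nat.one_le_pow _ _ (Nat.pow_pos (by omega))
    rw [pow_succ, pow_mul] at h5
    have h8 := Nat.mul_le_mul_left l h7
    simp only at h3
    nlinarith
  · rintro ⟨l, hl, h⟩
    have l0 : (1 : ℝ) ≤ l := by exact_mod_cast hl
    obtain ⟨C, hC⟩ := subexp (ε := 1 / (4 * l)) (by positivity)
    have key : ∀ n : ℕ, (2 : ℝ) ^ n ≤ (l * (|C| * Real.exp (1 / 4)) + l) * Real.exp (1 / 4) ^ n := by
      intro n
      have h1 : ((2 : ℝ) ^ n) ≤ l * autGrowth SS (l * n + l) + l := by exact_mod_cast h n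
      have h2 : (autGrowth SS (l * n + l) : ℝ) ≤ (Bl (l * n + l)).ncard := by
        exact_mod_cast upper _
      have h3 := (hC (l * n + l)).2
      have h4 : Real.exp (1 / (4 * l) * ((l * n + l : ℕ) : ℝ)) =
          Real.exp (1 / 4) * Real.exp (1 / 4) ^ n := by
        rw [← Real.exp_nat_mul, ← Real.exp_add]; congr 1; push_cast; field_simp; ring
      rw [h4] at h3
      have h5 : (1 : ℝ) ≤ Real.exp (1 / 4) ^ n := one_le_pow₀ (Real.one_le_exp (by norm_num))
      have h6 : C * (Real.exp (1 / 4) * Real.exp (1 / 4) ^ n) ≤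
          |C| * (Real.exp (1 / 4) * Real.exp (1 / 4) ^ n) := by
        gcongr; exact le_abs_self C
      have h7 := mul_le_mul_of_nonneg_left ((h2.trans h3).trans h6) (show (0 : ℝ) ≤ l by linarith)
      nlinarith
    have e : Real.exp (1 / 4) < 2 := by
      have := Real.exp_bound_div_one_sub_of_interval (x := 1 / 4) (by norm_num) (by norm_num)
      linarith [show (1 : ℝ) / (1 - 1 / 4) < 2 by norm_num]
    have t := tendsto_pow_atTop_atTop_of_one_lt ((one_lt_div (Real.exp_pos (1 / 4))).2 e)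
    obtain ⟨n, hn⟩ := (t.eventually_gt_atTop (l * (|C| * Real.exp (1 / 4)) + l)).exists
    rw [div_pow, lt_div_iff₀ (by positivity)] at hn
    exact absurd (key n) (not_le.2 hn)

end Pool.Agent.Results.MP_b4aa87_al.Full
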